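import Mathlib
import Pool.Agent.R440.WZ
import Pool.Agent.R440.Loc
import Pool.Agent.R440.V2

/-!
# MP_d51828: a WZ pair for `∑ (21k³+22k²+8k+1) C(2k,k)^7 256^{-k}`

The closed form `a_{N-1} = (N/16) ∑_{2k+1 ≤ N} (2k+1) T(N,k)²`.
-/

set_option autoImplicit false

namespace Pool.Agent.R440.D518

open Finset Nat Pool.Agent.R440

/-- the WZ seed -/
noncomputable def F (n k : ℕ) : ℚ :=
  (2 * (k : ℚ) + 1) * (n : ℚ) ^ 4 * 16 ^ n * hg (n : ℤ) ^ 2 * ((2 * n)! : ℚ) * rf (n : ℤ) ^ 4 *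
    (hg ((n : ℤ) + k) * hg ((n : ℤ) - k - 1) * rf ((n : ℤ) + 2 * k + 1) *
      rf ((n : ℤ) - 2 * k - 1)) ^ 2

/-- the certificate -/
noncomputable def R (n k : ℕ) : ℚ :=
  16 ^ n * hg (n : ℤ) ^ 2 * ((2 * n)! : ℚ) * rf (n : ℤ) ^ 4 *
    (hg ((n : ℤ) + k) * hg ((n : ℤ) - k) * rf ((n : ℤ) + 2 * k) * rf ((n : ℤ) - 2 * k)) ^ 2 *
    (-(1 / 2) * ((21 * (n : ℚ) ^ 3 + 22 * n ^ 2 + 8 * n + 1) - 4 * (3 * n + 1) * (k : ℚ) ^ 2))

/-- the summand -/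
noncomputable def s (n : ℕ) : ℚ :=
  (21 * (n : ℚ) ^ 3 + 22 * n ^ 2 + 8 * n + 1) * ((2 * n).choose n : ℚ) ^ 7 / (2 * 256 ^ n)

theorem wz (n k : ℕ) : F (n + 1) k - 1 * F n k = R n (k + 1) - R n k := by
  unfold F R
  have e1 : rf (((n + 1 : ℕ) : ℤ) + 2 * k + 1) = rf ((n : ℤ) + 2 * k + 2) := by
    rw [show ((n + 1 : ℕ) : ℤ) + 2 * k + 1 = (n : ℤ) + 2 * k + 2 by push_cast; ring]
  have e2 : rf (((n + 1 : ℕ) : ℤ) - 2 * k - 1) = rf ((n : ℤ) - 2 * k) := by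
    rw [show ((n + 1 : ℕ) : ℤ) - 2 * k - 1 = (n : ℤ) - 2 * k by push_cast; ring]
  have e3 : rf ((n : ℤ) + 2 * k + 1) = ((n : ℚ) + 2 * k + 2) * rf ((n : ℤ) + 2 * k + 2) := by
    rw [rf_step, show (n : ℤ) + 2 * k + 1 + 1 = (n : ℤ) + 2 * k + 2 by ring]; push_cast; ring
  have e4 : rf ((n : ℤ) - 2 * k - 1) = ((n : ℚ) - 2 * k) * rf ((n : ℤ) - 2 * k) := by
    rw [rf_step, show (n : ℤ) - 2 * k - 1 + 1 = (n : ℤ) - 2 * k by ring]; push_cast; ring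
  have e5 : rf ((n : ℤ) + 2 * k) = ((n : ℚ) + 2 * k + 1) * (((n : ℚ) + 2 * k + 2) *
      rf ((n : ℤ) + 2 * k + 2)) := by
    rw [rf_step, e3]; push_cast; ring
  have e6 : rf ((n : ℤ) + 2 * (k + 1 : ℕ)) = rf ((n : ℤ) + 2 * k + 2) := by
    rw [show (n : ℤ) + 2 * (k + 1 : ℕ) = (n : ℤ) + 2 * k + 2 by push_cast; ring]
  have e7 : rf ((n : ℤ) - 2 * (k + 1 : ℕ)) = ((n : ℚ) - 2 * k - 1) * (((n : ℚ) - 2 * k) *
      rf ((n : ℤ) - 2 * k)) := by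
    rw [rf_step, show (n : ℤ) - 2 * (k + 1 : ℕ) + 1 = (n : ℤ) - 2 * k - 1 by push_cast; ring, e4]
    push_cast; ring
  have e8 : rf (n : ℤ) = ((n : ℚ) + 1) * rf ((n + 1 : ℕ) : ℤ) := by
    rw [rf_step]; push_cast; ring
  have g1 : hg (((n + 1 : ℕ) : ℤ) + k) = ((n : ℚ) + k + 1 / 2) * hg ((n : ℤ) + k) := by
    rw [show ((n + 1 : ℕ) : ℤ) + k = ((n : ℤ) + k) + 1 by push_cast; ring, hg_step]
    push_cast; ring
  have g2 : hg (((n + 1 : ℕ) : ℤ) - k - 1) = ((n : ℚ) - k - 1 / 2) * hg ((n : ℤ) - k - 1) := by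
    rw [show ((n + 1 : ℕ) : ℤ) - k - 1 = ((n : ℤ) - k - 1) + 1 by push_cast; ring, hg_step]
    push_cast; ring
  have g3 : hg ((n + 1 : ℕ) : ℤ) = ((n : ℚ) + 1 / 2) * hg (n : ℤ) := by
    rw [show ((n + 1 : ℕ) : ℤ) = (n : ℤ) + 1 by push_cast; ring, hg_step]
    push_cast; ring
  have g4 : hg ((n : ℤ) + (k + 1 : ℕ)) = ((n : ℚ) + k + 1 / 2) * hg ((n : ℤ) + k) := by
    rw [show (n : ℤ) + (k + 1 : ℕ) = ((n : ℤ) + k) + 1 by push_cast; ring, hg_step]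
    push_cast; ring
  have g5 : hg ((n : ℤ) - (k + 1 : ℕ)) = hg ((n : ℤ) - k - 1) := by
    congr 1; push_cast; ring
  have g6 : hg ((n : ℤ) - k) = ((n : ℚ) - k - 1 / 2) * hg ((n : ℤ) - k - 1) := by
    rw [show (n : ℤ) - k = ((n : ℤ) - k - 1) + 1 by ring, hg_step]
    push_cast; ring
  have f1 : ((2 * (n + 1))! : ℚ) = (2 * n + 2) * (2 * n + 1) * ((2 * n)! : ℚ) := by
    rw [show 2 * (n + 1) = 2 * n + 1 + 1 by ring, Nat.factorial_succ, Nat.factorial_succ]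
    push_cast; ring
  rw [e1, e2, e3, e4, e5, e6, e7, e8, g1, g2, g3, g4, g5, g6, f1]
  clear e1 e2 e3 e4 e5 e6 e7 e8 g1 g2 g3 g4 g5 g6 f1
  generalize hg ((n : ℤ) + k) = H1
  generalize hg ((n : ℤ) - k - 1) = H2
  generalize hg (n : ℤ) = H3
  generalize rf ((n : ℤ) - 2 * k) = H4
  generalize rf ((n : ℤ) + 2 * k + 2) = H5
  generalize rf ((n + 1 : ℕ) : ℤ) = H6
  generalize ((2 * n)! : ℚ) = H7
  push_cast
  ring

theorem R_zero (n : ℕ) : R n 0 = - s n := by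
  unfold R s
  have h1 : rf ((n : ℤ) + 2 * (0 : ℕ)) = 1 / (n ! : ℚ) := by rw [← rf_nat n]; simp
  have h2 : rf ((n : ℤ) - 2 * (0 : ℕ)) = 1 / (n ! : ℚ) := by rw [← rf_nat n]; simp
  have h3 : hg ((n : ℤ) + (0 : ℕ)) = hg (n : ℤ) := by simp
  have h4 : hg ((n : ℤ) - (0 : ℕ)) = hg (n : ℤ) := by simp
  have h6 : (256 : ℚ) ^ n = 4 ^ n * 4 ^ n * 16 ^ n := by
    rw [← mul_pow, ← mul_pow]; norm_num
  have h7 : (16 : ℚ) ^ n = 4 ^ n * 4 ^ n := by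
    rw [← mul_pow]; norm_num
  rw [h1, h2, h3, h4, hg_nat, rf_nat, choose_two_mul, h6, h7]
  have z2 : (n ! : ℚ) ≠ 0 := by positivity
  have z3 : ((2 * n)! : ℚ) ≠ 0 := by positivity
  simp only [Nat.cast_zero]
  field_simp
  ring

theorem R_top (n : ℕ) : R n (n + 1) = 0 := by
  unfold R
  rw [rf_neg (by push_cast; omega : (n : ℤ) - 2 * ((n + 1 : ℕ) : ℤ) < 0)]
  ring

theorem F_top (n : ℕ) : F n n = 0 := by
  unfold F
  rw [rf_neg (by omega : (n : ℤ) - 2 * n - 1 < 0)]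
  ring

theorem sum_s (N : ℕ) : ∑ j ∈ range N, s j = ∑ k ∈ range N, F N k := by
  have h := wz_sum 1 s F R (fun n k _ => wz n k) R_zero R_top F_top N
  rw [← h]
  refine Finset.sum_congr rfl fun j _ => ?_
  rw [one_pow, mul_one]

/-- the basic quotient, `N = 2k+1+m` -/
noncomputable def T (k m : ℕ) : ℚ :=
  ((6 * k + 2 * m + 2)! : ℚ) * ((2 * k + 2 * m)! : ℚ) /
    (((3 * k + m + 1)! : ℚ) * ((k + m)! : ℚ) * ((4 * k + m + 2)! : ℚ) * (m ! : ℚ))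

/-- the terms, `N = 2k+1+m` -/
noncomputable def t (k m : ℕ) : ℚ :=
  ((2 * k + 1 + m : ℕ) : ℚ) * ((2 * k + 1 : ℕ) : ℚ) * T k m ^ 2 / 16

theorem F_eq (k m : ℕ) : 256 ^ (2 * k + m) * F (2 * k + 1 + m) k
    = ((2 * k + 1 + m : ℕ) : ℚ) ^ 3 * ((2 * (2 * k + 1 + m)).choose (2 * k + 1 + m) : ℚ) ^ 3 *
      t k m := by
  unfold F t T
  have h1 : rf (((2 * k + 1 + m : ℕ) : ℤ) + 2 * k + 1) = 1 / ((4 * k + m + 2)! : ℚ) := by
    rw [← rf_nat]; congr 1; push_cast; ring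
  have h2 : rf (((2 * k + 1 + m : ℕ) : ℤ) - 2 * k - 1) = 1 / (m ! : ℚ) := by
    rw [← rf_nat]; congr 1; push_cast; ring
  have h3 : hg (((2 * k + 1 + m : ℕ) : ℤ) + k) =
      ((6 * k + 2 * m + 2)! : ℚ) / (4 ^ (3 * k + m + 1) * (3 * k + m + 1)!) := by
    rw [show ((2 * k + 1 + m : ℕ) : ℤ) + k = ((3 * k + m + 1 : ℕ) : ℤ) by push_cast; ring, hg_nat,
      show 2 * (3 * k + m + 1) = 6 * k + 2 * m + 2 by ring]
  have h4 : hg (((2 * k + 1 + m : ℕ) : ℤ) - k - 1) =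
      ((2 * k + 2 * m)! : ℚ) / (4 ^ (k + m) * (k + m)!) := by
    rw [show ((2 * k + 1 + m : ℕ) : ℤ) - k - 1 = ((k + m : ℕ) : ℤ) by push_cast; ring, hg_nat,
      show 2 * (k + m) = 2 * k + 2 * m by ring]
  rw [h1, h2, h3, h4, hg_nat, rf_nat, choose_two_mul]
  have e1 : (256 : ℚ) ^ (2 * k + m) = (4 ^ k) ^ 8 * (4 ^ m) ^ 4 := by
    rw [← pow_mul, ← pow_mul, show (256 : ℚ) = 4 ^ 4 by norm_num, ← pow_mul, ← pow_add]
    congr 1; ring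
  have e2 : (16 : ℚ) ^ (2 * k + 1 + m) = 16 * (4 ^ k) ^ 4 * (4 ^ m) ^ 2 := by
    rw [← pow_mul, ← pow_mul, show (16 : ℚ) = 4 ^ 2 by norm_num, ← pow_mul, ← pow_add, ← pow_add]
    congr 1; ring
  have e3 : (4 : ℚ) ^ (2 * k + 1 + m) = 4 * (4 ^ k) ^ 2 * 4 ^ m := by
    rw [← pow_mul, pow_add, pow_add, mul_comm k 2]; ring
  have e4 : (4 : ℚ) ^ (3 * k + m + 1) = 4 * (4 ^ k) ^ 3 * 4 ^ m := by
    rw [← pow_mul, pow_add, pow_add, mul_comm k 3]; ring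
  have e5 : (4 : ℚ) ^ (k + m) = 4 ^ k * 4 ^ m := by
    rw [pow_add]
  rw [e1, e2, e3, e4, e5]
  have z1 : ((2 * k + 1 + m)! : ℚ) ≠ 0 := by positivity
  have z2 : ((2 * (2 * k + 1 + m))! : ℚ) ≠ 0 := by positivity
  have z3 : ((6 * k + 2 * m + 2)! : ℚ) ≠ 0 := by positivity
  have z4 : ((2 * k + 2 * m)! : ℚ) ≠ 0 := by positivity
  have z5 : ((3 * k + m + 1)! : ℚ) ≠ 0 := by positivity
  have z6 : ((k + m)! : ℚ) ≠ 0 := by positivity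
  have z7 : ((4 * k + m + 2)! : ℚ) ≠ 0 := by positivity
  have z8 : (m ! : ℚ) ≠ 0 := by positivity
  have z9 : (4 : ℚ) ^ k ≠ 0 := by positivity
  have z10 : (4 : ℚ) ^ m ≠ 0 := by positivity
  generalize ((2 * k + 1 + m)! : ℚ) = A1 at *
  generalize ((2 * (2 * k + 1 + m))! : ℚ) = A2 at *
  generalize ((6 * k + 2 * m + 2)! : ℚ) = A3 at *
  generalize ((2 * k + 2 * m)! : ℚ) = A4 at *
  generalize ((3 * k + m + 1)! : ℚ) = A5 at *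
  generalize ((k + m)! : ℚ) = A6 at *
  generalize ((4 * k + m + 2)! : ℚ) = A7 at *
  generalize (m ! : ℚ) = A8 at *
  generalize (4 : ℚ) ^ k = A9 at *
  generalize (4 : ℚ) ^ m = A10 at *
  push_cast
  field_simp
  try ring

theorem cb_rel (N : ℕ) : ((N : ℚ) + 1) * ((2 * (N + 1)).choose (N + 1) : ℚ)
    = 2 * (2 * N + 1) * ((2 * N).choose N : ℚ) := by
  have h := cb_step (N : ℤ)
  rw [show (N : ℤ) + 1 = ((N + 1 : ℕ) : ℤ) by push_cast; ring, cb_nat, cb_nat] at h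
  push_cast at h
  linarith

theorem half_cb (n : ℕ) (hn : 1 ≤ n) :
    ((2 * n - 1).choose n : ℚ) = ((2 * n).choose n : ℚ) / 2 := by
  obtain ⟨m, rfl⟩ : ∃ m, n = m + 1 := ⟨n - 1, by omega⟩
  have h1 : (2 * (m + 1)).choose (m + 1) = 2 * (2 * (m + 1) - 1).choose (m + 1) := by
    rw [show 2 * (m + 1) = 2 * m + 1 + 1 by ring, show 2 * m + 1 + 1 - 1 = 2 * m + 1 by omega,
      Nat.choose_succ_succ, Nat.choose_symm_half]
    have := Nat.choose_symm_half m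
    omega
  rw [h1]
  push_cast
  ring

/-- the recurrence is solved by the partial sums -/
theorem a_closed (a : ℕ → ℚ) (h1 : a 1 = 2)
    (hrec : ∀ n : ℕ, 2 ≤ n → (2 * (n : ℚ) + 1) ^ 3 * a n = 32 * (n : ℚ) ^ 3 * a (n - 1) +
      (21 * (n : ℚ) ^ 3 + 22 * n ^ 2 + 8 * n + 1) * ((2 * n - 1).choose n : ℚ) ^ 4)
    (N : ℕ) (hN : 1 ≤ N) :
    ((N : ℚ) + 1) ^ 3 * ((2 * (N + 1)).choose (N + 1) : ℚ) ^ 3 * a N
      = 256 ^ N * ∑ j ∈ range (N + 1), s j := by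
  obtain ⟨M, rfl⟩ : ∃ M, N = M + 1 := ⟨N - 1, by omega⟩
  clear hN
  induction M with
  | zero =>
    rw [h1]
    simp only [zero_add, Finset.sum_range_succ, Finset.sum_range_zero]
    unfold s
    norm_num [Nat.choose]
  | succ M ih =>
    have h2 := hrec (M + 1 + 1) (by omega)
    rw [half_cb _ (by omega), Nat.add_sub_cancel] at h2
    have h3 := cb_rel (M + 1 + 1)
    have h0 : (256 : ℚ) ^ (M + 1 + 1) * ∑ j ∈ range (M + 1 + 1 + 1), s j =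
        256 * (256 ^ (M + 1) * ∑ j ∈ range (M + 1 + 1), s j) +
          (256 * 256 ^ (M + 1) : ℚ) * s (M + 1 + 1) := by
      rw [Finset.sum_range_succ s (M + 1 + 1), pow_succ' (256 : ℚ) (M + 1)]
      ring
    rw [h0, ← ih]
    have h4 : (256 * 256 ^ (M + 1) : ℚ) * s (M + 1 + 1) =
      (21 * ((M + 1 + 1 : ℕ) : ℚ) ^ 3 + 22 * ((M + 1 + 1 : ℕ) : ℚ) ^ 2 + 8 * ((M + 1 + 1 : ℕ) : ℚ) + 1) *
        ((2 * (M + 1 + 1)).choose (M + 1 + 1) : ℚ) ^ 7 / 2 := by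
      unfold s
      rw [pow_succ (256 : ℚ) (M + 1)]
      have : (256 : ℚ) ^ (M + 1) ≠ 0 := by positivity
      field_simp
    rw [h4]
    have h5 : (((M + 1 + 1 : ℕ) : ℚ) + 1) ^ 3 * ((2 * (M + 1 + 1 + 1)).choose (M + 1 + 1 + 1) : ℚ) ^ 3 =
      8 * (2 * ((M + 1 + 1 : ℕ) : ℚ) + 1) ^ 3 * ((2 * (M + 1 + 1)).choose (M + 1 + 1) : ℚ) ^ 3 := by
      rw [← mul_pow, h3]; ring
    rw [h5]
    have h6 : 8 * (2 * ((M + 1 + 1 : ℕ) : ℚ) + 1) ^ 3 * ((2 * (M + 1 + 1)).choose (M + 1 + 1) : ℚ) ^ 3 *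
      a (M + 1 + 1) = 8 * ((2 * (M + 1 + 1)).choose (M + 1 + 1) : ℚ) ^ 3 *
        ((2 * ((M + 1 + 1 : ℕ) : ℚ) + 1) ^ 3 * a (M + 1 + 1)) := by ring
    rw [h6, h2]
    generalize ((2 * (M + 1 + 1)).choose (M + 1 + 1) : ℚ) = C
    push_cast
    ring

theorem F_high (N k : ℕ) (h : N < 2 * k + 1) : F N k = 0 := by
  unfold F
  rw [rf_neg (by omega : (N : ℤ) - 2 * k - 1 < 0)]
  ring

/-- the closed form `a_{N-1} = ∑ t` -/
theorem a_eq (a : ℕ → ℚ) (h1 : a 1 = 2)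
    (hrec : ∀ n : ℕ, 2 ≤ n → (2 * (n : ℚ) + 1) ^ 3 * a n = 32 * (n : ℚ) ^ 3 * a (n - 1) +
      (21 * (n : ℚ) ^ 3 + 22 * n ^ 2 + 8 * n + 1) * ((2 * n - 1).choose n : ℚ) ^ 4)
    (n : ℕ) (hn : 1 ≤ n) :
    a n = ∑ k ∈ range (n / 2 + 1), t k (n - 2 * k) := by
  have h2 := a_closed a h1 hrec n hn
  rw [sum_s] at h2
  have h3 : ∑ k ∈ range (n + 1), F (n + 1) k = ∑ k ∈ range (n / 2 + 1), F (n + 1) k := by
    symm
    refine Finset.sum_subset ?_ ?_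
    · intro x hx
      rw [Finset.mem_range] at hx ⊢
      omega
    · intro x _ hx
      rw [Finset.mem_range] at hx
      exact F_high _ _ (by omega)
  rw [h3, Finset.mul_sum] at h2
  have h4 : ∀ k ∈ range (n / 2 + 1), 256 ^ n * F (n + 1) k =
      ((n : ℚ) + 1) ^ 3 * ((2 * (n + 1)).choose (n + 1) : ℚ) ^ 3 * t k (n - 2 * k) := by
    intro k hk
    have hk' := Finset.mem_range.mp hk
    obtain ⟨m, rfl⟩ : ∃ m, n = 2 * k + m := ⟨n - 2 * k, by omega⟩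
    have := F_eq k m
    rw [show 2 * k + 1 + m = 2 * k + m + 1 by ring] at this
    rw [this, show 2 * k + m - 2 * k = m by omega]
    push_cast
    ring
  rw [Finset.sum_congr rfl h4, ← Finset.mul_sum] at h2
  have h5 : 0 < (2 * (n + 1)).choose (n + 1) := Nat.choose_pos (by omega)
  have h6 : ((n : ℚ) + 1) ^ 3 * ((2 * (n + 1)).choose (n + 1) : ℚ) ^ 3 ≠ 0 := by positivity
  exact mul_left_cancel₀ h6 h2

theorem t_pos (k m : ℕ) : 0 < t k m := by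
  unfold t T
  positivity

theorem a_pos (a : ℕ → ℚ) (h1 : a 1 = 2)
    (hrec : ∀ n : ℕ, 2 ≤ n → (2 * (n : ℚ) + 1) ^ 3 * a n = 32 * (n : ℚ) ^ 3 * a (n - 1) +
      (21 * (n : ℚ) ^ 3 + 22 * n ^ 2 + 8 * n + 1) * ((2 * n - 1).choose n : ℚ) ^ 4)
    (n : ℕ) (hn : 1 ≤ n) : 0 < a n := by
  rw [a_eq a h1 hrec n hn]
  exact Finset.sum_pos (fun k _ => t_pos _ _) ⟨0, by simp⟩

end Pool.Agent.R440.D518
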