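import Mathlib
import Pool.Agent.R440.WZ
import Pool.Agent.R440.Loc
import Pool.Agent.R440.V2
import Pool.Agent.R440.D518.A

/-!
# MP_d51828: integrality at odd primes (termwise)
-/

set_option autoImplicit false

namespace Pool.Agent.R440.D518

open Finset Nat Pool.Agent.R440

/-- valuation count of `N (2k+1) T²` at the prime power `q` -/
def W (q n k : ℤ) : ℤ :=
  (n / q - (n - 1) / q) + ((2 * k + 1) / q - (2 * k) / q) +
    2 * ((2 * n + 2 * k) / q + (2 * n - 2 * k - 2) / q -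
      ((n + k) / q + (n - k - 1) / q + (n + 2 * k + 1) / q + (n - 2 * k - 1) / q))

theorem W_nonneg (q n k : ℤ) (hq : 3 ≤ q) (hodd : q % 2 = 1) : 0 ≤ W q n k := by
  have h0 : q ≠ 0 := by omega
  have hq0 : 0 < q := by omega
  obtain ⟨b, y, hy0, hy1, rfl⟩ : ∃ b y : ℤ, 0 ≤ y ∧ y < q ∧ k = y + q * b :=
    ⟨k / q, k % q, Int.emod_nonneg _ h0, Int.emod_lt_of_pos _ hq0, (Int.emod_add_mul_ediv k q).symm⟩
  obtain ⟨c, u, hu0, hu1, rfl⟩ : ∃ c u : ℤ, 0 ≤ u ∧ u < q ∧ n = u + q * c :=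
    ⟨n / q, n % q, Int.emod_nonneg _ h0, Int.emod_lt_of_pos _ hq0, (Int.emod_add_mul_ediv n q).symm⟩
  unfold W
  rw [show 2 * (y + q * b) + 1 = (2 * y + 1) + q * (2 * b) by ring,
    show 2 * (u + q * c) + 2 * (y + q * b) = (2 * u + 2 * y) + q * (2 * c + 2 * b) by ring,
    show 2 * (u + q * c) - 2 * (y + q * b) - 2 = (2 * u - 2 * y - 2) + q * (2 * c - 2 * b) by ring,
    show u + q * c + (y + q * b) = (u + y) + q * (c + b) by ring,
    show u + q * c - (y + q * b) - 1 = (u - y - 1) + q * (c - b) by ring,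
    show u + q * c + 2 * (y + q * b) + 1 = (u + 2 * y + 1) + q * (c + 2 * b) by ring,
    show u + q * c - 2 * (y + q * b) - 1 = (u - 2 * y - 1) + q * (c - 2 * b) by ring,
    show u + q * c - 1 = (u - 1) + q * c by ring,
    show 2 * (y + q * b) = 2 * y + q * (2 * b) by ring]
  simp only [Int.add_mul_ediv_left _ _ h0]
  rw [Int.ediv_eq_zero_of_lt hu0 hu1]
  obtain ⟨l1, u1, c1, d1⟩ := fl_spec (2 * u + 2 * y) q 0 3 hq0 (by linarith) (by linarith)
  obtain ⟨l2, u2, c2, d2⟩ := fl_spec (2 * u - 2 * y - 2) q (-2) 1 hq0 (by linarith) (by linarith)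
  obtain ⟨l3, u3, c3, d3⟩ := fl_spec (u + y) q 0 1 hq0 (by linarith) (by linarith)
  obtain ⟨l4, u4, c4, d4⟩ := fl_spec (u - y - 1) q (-1) 0 hq0 (by linarith) (by linarith)
  obtain ⟨l5, u5, c5, d5⟩ := fl_spec (u + 2 * y + 1) q 0 2 hq0 (by linarith) (by linarith)
  obtain ⟨l6, u6, c6, d6⟩ := fl_spec (u - 2 * y - 1) q (-2) 0 hq0 (by linarith) (by linarith)
  obtain ⟨l7, u7, c7, d7⟩ := fl_spec (u - 1) q (-1) 0 hq0 (by linarith) (by linarith)
  obtain ⟨l8, u8, c8, d8⟩ := fl_spec (2 * y + 1) q 0 1 hq0 (by linarith) (by linarith)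
  obtain ⟨l9, u9, c9, d9⟩ := fl_spec (2 * y) q 0 1 hq0 (by linarith) (by linarith)
  generalize (2 * u + 2 * y) / q = X1 at *
  generalize (2 * u - 2 * y - 2) / q = X2 at *
  generalize (u + y) / q = X3 at *
  generalize (u - y - 1) / q = X4 at *
  generalize (u + 2 * y + 1) / q = X5 at *
  generalize (u - 2 * y - 1) / q = X6 at *
  generalize (u - 1) / q = X7 at *
  generalize (2 * y + 1) / q = X8 at *
  generalize (2 * y) / q = X9 at *
  obtain ⟨r, rfl⟩ : ∃ r, q = 2 * r + 1 := ⟨q / 2, by omega⟩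
  interval_cases X7 <;> interval_cases X8 <;> interval_cases X9 <;> (try omega) <;>
    interval_cases X3 <;> (try omega) <;> interval_cases X4 <;> (try omega) <;>
    interval_cases X5 <;> (try omega) <;> interval_cases X6 <;> (try omega) <;>
    interval_cases X1 <;> (try omega) <;> interval_cases X2 <;> omega

theorem T_val {p : ℕ} [hp : Fact p.Prime] (k m : ℕ) :
    HasVal p (T k m) (fun i => (6 * (k : ℤ) + 2 * m + 2) / (p : ℤ) ^ i +
      (2 * (k : ℤ) + 2 * m) / (p : ℤ) ^ i -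
      ((3 * (k : ℤ) + m + 1) / (p : ℤ) ^ i + ((k : ℤ) + m) / (p : ℤ) ^ i +
        (4 * (k : ℤ) + m + 2) / (p : ℤ) ^ i + (m : ℤ) / (p : ℤ) ^ i)) := by
  unfold T
  refine (((HasVal.fac (6 * k + 2 * m + 2)).mul (HasVal.fac (2 * k + 2 * m))).div
    ((((HasVal.fac (3 * k + m + 1)).mul (HasVal.fac (k + m))).mul (HasVal.fac (4 * k + m + 2))).mul
    (HasVal.fac m))).congr fun i _ => ?_
  push_cast
  rfl

theorem t_mem {p : ℕ} [hp : Fact p.Prime] (h2 : p ≠ 2) (k m : ℕ) : t k m ∈ Zp p := by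
  have h16 : (1 / ((16 : ℕ) : ℚ)) ∈ Zp p := by
    refine inv_nat_mem_Zp fun h => h2 ?_
    have : p ∣ 2 ^ 4 := by simpa using h
    exact (Nat.prime_dvd_prime_iff_eq hp.out Nat.prime_two).mp (hp.out.dvd_of_dvd_pow this)
  have e : t k m = ((2 * k + 1 + m : ℕ) : ℚ) * ((2 * k + 1 : ℕ) : ℚ) * (T k m * T k m) *
      (1 / ((16 : ℕ) : ℚ)) := by
    unfold t; push_cast; ring
  rw [e]
  refine (Zp p).mul_mem ?_ h16
  refine (((val_nat (p := p) (n := 2 * k + 1 + m) (by omega)).mul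
    (val_nat (p := p) (n := 2 * k + 1) (by omega))).mul ((T_val k m).mul (T_val k m))).mem
      fun l hl => ?_
  have hodd : 3 ≤ (p : ℤ) ^ l ∧ ((p : ℤ) ^ l) % 2 = 1 := by
    have h1 : Odd p := hp.out.odd_of_ne_two h2
    have h3 : Odd (p ^ l) := h1.pow
    have h4 : (p ^ l) % 2 = 1 := Nat.odd_iff.mp h3
    have h5 := two_le_pow' hp.out hl
    have h6 : 2 ≤ p ^ l := by exact_mod_cast h5
    have h7 : 3 ≤ p ^ l := by omega
    exact ⟨by exact_mod_cast h7, by exact_mod_cast h4⟩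
  have h6 := W_nonneg _ (2 * (k : ℤ) + 1 + m) k hodd.1 hodd.2
  unfold W at h6
  push_cast
  rw [show 2 * (2 * (k : ℤ) + 1 + m) + 2 * k = 6 * k + 2 * m + 2 by ring,
    show 2 * (2 * (k : ℤ) + 1 + m) - 2 * k - 2 = 2 * k + 2 * m by ring,
    show 2 * (k : ℤ) + 1 + m + k = 3 * k + m + 1 by ring,
    show 2 * (k : ℤ) + 1 + m - k - 1 = k + m by ring,
    show 2 * (k : ℤ) + 1 + m + 2 * k + 1 = 4 * k + m + 2 by ring,
    show 2 * (k : ℤ) + 1 + m - 2 * k - 1 = m by ring] at h6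
  rw [show 2 * (k : ℤ) + 1 - 1 = 2 * k by ring]
  linarith

theorem a_mem_odd {p : ℕ} [hp : Fact p.Prime] (h2 : p ≠ 2) (a : ℕ → ℚ) (h1 : a 1 = 2)
    (hrec : ∀ n : ℕ, 2 ≤ n → (2 * (n : ℚ) + 1) ^ 3 * a n = 32 * (n : ℚ) ^ 3 * a (n - 1) +
      (21 * (n : ℚ) ^ 3 + 22 * n ^ 2 + 8 * n + 1) * ((2 * n - 1).choose n : ℚ) ^ 4)
    (n : ℕ) (hn : 1 ≤ n) : a n ∈ Zp p := by
  rw [a_eq a h1 hrec n hn]
  exact (Zp p).sum_mem fun k _ => t_mem h2 _ _

end Pool.Agent.R440.D518
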