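import Mathlib
import Pool.Agent.R440.WZ
import Pool.Agent.R440.Loc
import Pool.Agent.R440.V2
import Pool.Agent.R440.D518.A
import Pool.Agent.R440.D518.B

/-!
# MP_d51828: the prime 2
-/

set_option autoImplicit false

namespace Pool.Agent.R440.D518

open Finset Nat Pool.Agent.R440

instance : Fact (Nat.Prime 2) := ⟨Nat.prime_two⟩

/-- a 2-adic unit has square `1 mod 8` -/
theorem sq_unit {y : ℚ} (h0 : y ≠ 0) (hy : padicValRat 2 y = 0) :
    ∃ w ∈ Zp 2, y ^ 2 = 1 + 8 * w := by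
  have hcop := y.reduced
  rw [padicValRat_def] at hy
  have hden : ¬ 2 ∣ y.den := by
    intro hd
    have hnum : ¬ (2 : ℤ) ∣ y.num := by
      intro hc
      have h2 : 2 ∣ y.num.natAbs := Int.natCast_dvd.mp hc
      have h3 := Nat.Coprime.eq_one_of_dvd (Nat.Coprime.coprime_dvd_left h2 hcop) hd
      omega
    have h4 : padicValInt 2 y.num = 0 := padicValInt.eq_zero_of_not_dvd hnum
    have h5 : 1 ≤ padicValNat 2 y.den := one_le_padicValNat_of_dvd y.den_nz hd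
    rw [h4] at hy
    omega
  have h5 : padicValNat 2 y.den = 0 := padicValNat.eq_zero_of_not_dvd hden
  have hnum : ¬ (2 : ℤ) ∣ y.num := by
    intro hc
    have h2 : 2 ∣ y.num.natAbs := Int.natCast_dvd.mp hc
    have h6 : 1 ≤ padicValNat 2 y.num.natAbs :=
      one_le_padicValNat_of_dvd (by simpa using h0) h2
    unfold padicValInt at hy
    omega
  obtain ⟨a, ha⟩ : ∃ a : ℤ, y.num = 2 * a + 1 := ⟨y.num / 2, by omega⟩
  obtain ⟨b, hb⟩ : ∃ b : ℤ, (y.den : ℤ) = 2 * b + 1 := ⟨(y.den : ℤ) / 2, by omega⟩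
  obtain ⟨c, hc⟩ := Int.even_mul_succ_self a
  obtain ⟨d, hd⟩ := Int.even_mul_succ_self b
  have hdq : (y.den : ℚ) ≠ 0 := by exact_mod_cast y.den_nz
  refine ⟨((c - d : ℤ) : ℚ) * ((1 / ((y.den : ℕ) : ℚ)) * (1 / ((y.den : ℕ) : ℚ))), ?_, ?_⟩
  · exact (Zp 2).mul_mem (intCast_mem_Zp _) ((Zp 2).mul_mem (inv_nat_mem_Zp hden) (inv_nat_mem_Zp hden))
  · have h7 : y = (y.num : ℚ) / (y.den : ℚ) := (Rat.num_div_den y).symm
    have h8 : (y.num : ℚ) ^ 2 = (y.den : ℚ) ^ 2 + 8 * ((c - d : ℤ) : ℚ) := by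
      have h9 : y.num ^ 2 = (y.den : ℤ) ^ 2 + 8 * (c - d) := by
        rw [ha, hb]
        linear_combination 4 * hc - 4 * hd
      have h10 : ((y.num ^ 2 : ℤ) : ℚ) = (((y.den : ℤ) ^ 2 + 8 * (c - d) : ℤ) : ℚ) := by rw [h9]
      push_cast at h10 ⊢
      exact h10
    calc y ^ 2 = (y.num : ℚ) ^ 2 / (y.den : ℚ) ^ 2 := by
          conv_lhs => rw [h7]
          rw [div_pow]
      _ = _ := by
          rw [h8]
          field_simp

theorem two_val : padicValRat 2 (2 : ℚ) = 1 := by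
  have := padicValRat.self (p := 2) (by norm_num)
  exact_mod_cast this

theorem sq_form {x : ℚ} (h0 : x ≠ 0) (e : ℕ) (he : padicValRat 2 x = e) :
    ∃ w ∈ Zp 2, x ^ 2 = 4 ^ e * (1 + 8 * w) := by
  have h2 : (2 : ℚ) ^ e ≠ 0 := by positivity
  obtain ⟨w, hw, h⟩ := sq_unit (y := x / 2 ^ e) (div_ne_zero h0 h2) (by
    rw [padicValRat.div h0 h2, padicValRat.pow, two_val, he]
    ring)
  refine ⟨w, hw, ?_⟩
  rw [← h, div_pow, ← pow_mul, mul_comm e 2, pow_mul]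
  norm_num
  field_simp

theorem T_ne (k m : ℕ) : T k m ≠ 0 := by unfold T; positivity

theorem T_val2 (k m : ℕ) : padicValRat 2 (T k m) = (4 * k + 2 * m + 1) - vf (4 * k + m + 2) - vf m := by
  unfold T
  have z3 : ((6 * k + 2 * m + 2)! : ℚ) ≠ 0 := by positivity
  have z4 : ((2 * k + 2 * m)! : ℚ) ≠ 0 := by positivity
  have z5 : ((3 * k + m + 1)! : ℚ) ≠ 0 := by positivity
  have z6 : ((k + m)! : ℚ) ≠ 0 := by positivity
  have z7 : ((4 * k + m + 2)! : ℚ) ≠ 0 := by positivity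
  have z8 : (m ! : ℚ) ≠ 0 := by positivity
  rw [padicValRat.div (by positivity) (by positivity), padicValRat.mul z3 z4,
    padicValRat.mul (by positivity) z8, padicValRat.mul (by positivity) z7,
    padicValRat.mul z5 z6, val_fac, val_fac, val_fac, val_fac, val_fac, val_fac,
    show 6 * k + 2 * m + 2 = 2 * (3 * k + m + 1) by ring, vf_even,
    show 2 * k + 2 * m = 2 * (k + m) by ring, vf_even]
  push_cast
  ring

/-- the valuation of both members of a pair -/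
theorem T_val_a (k c : ℕ) : padicValRat 2 (T (k + 1) (4 * c)) =
    (k + 1 + 2 * c) - vf (k + 1 + c) - vf c := by
  rw [T_val2, show 4 * (k + 1) + 4 * c + 2 = 2 * (2 * (k + 1 + c) + 1) by ring, vf_even, vf_odd,
    show 4 * c = 2 * (2 * c) by ring, vf_even, vf_even]
  push_cast
  ring

theorem T_val_b (k c : ℕ) : padicValRat 2 (T k (4 * c + 2)) =
    (k + 1 + 2 * c) - vf (k + 1 + c) - vf c := by
  rw [T_val2, show 4 * k + (4 * c + 2) + 2 = 2 * (2 * (k + 1 + c)) by ring, vf_even, vf_even,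
    show 4 * c + 2 = 2 * (2 * c + 1) by ring, vf_even, vf_odd]
  push_cast
  ring

theorem pair_form (k c e : ℕ) (he : (e : ℤ) + 1 = (k + 1 + 2 * c) - vf (k + 1 + c) - vf c) :
    ∃ w ∈ Zp 2, t (k + 1) (4 * c) + t k (4 * c + 2) =
      ((2 * k + 3 + 4 * c : ℕ) : ℚ) * 4 ^ e * (((k + 1 : ℕ) : ℚ) + 2 * w) := by
  obtain ⟨w1, hw1, h1⟩ := sq_form (T_ne (k + 1) (4 * c)) (e + 1) (by rw [T_val_a]; push_cast; linarith)
  obtain ⟨w2, hw2, h2⟩ := sq_form (T_ne k (4 * c + 2)) (e + 1) (by rw [T_val_b]; push_cast; linarith)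
  refine ⟨((2 * k + 3 : ℕ) : ℚ) * w1 + ((2 * k + 1 : ℕ) : ℚ) * w2, ?_, ?_⟩
  · exact (Zp 2).add_mem ((Zp 2).mul_mem (natCast_mem_Zp _) hw1)
      ((Zp 2).mul_mem (natCast_mem_Zp _) hw2)
  · unfold t
    rw [h1, h2, pow_succ]
    push_cast
    ring

/-- evenness in `ℤ_(2)` -/
def Ev (x : ℚ) : Prop := x / 2 ∈ Zp 2

theorem Ev.add {x y : ℚ} (hx : Ev x) (hy : Ev y) : Ev (x + y) := by
  unfold Ev at *
  rw [add_div]
  exact (Zp 2).add_mem hx hy

theorem Ev.sum {ι : Type*} {S : Finset ι} {f : ι → ℚ} (h : ∀ i ∈ S, Ev (f i)) :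
    Ev (∑ i ∈ S, f i) := by
  unfold Ev at *
  rw [Finset.sum_div]
  exact (Zp 2).sum_mem h

theorem Ev.mem {x : ℚ} (hx : Ev x) : x ∈ Zp 2 := by
  unfold Ev at hx
  have h2 : (2 : ℚ) * (x / 2) ∈ Zp 2 := (Zp 2).mul_mem (by exact_mod_cast natCast_mem_Zp (p := 2) 2) hx
  rwa [mul_div_cancel₀ _ (by norm_num : (2 : ℚ) ≠ 0)] at h2

theorem half_not_mem : (1 / 2 : ℚ) ∉ Zp 2 := by
  rw [mem_Zp_iff (by norm_num), padicValRat.div (by norm_num) (by norm_num), two_val]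
  norm_num

theorem even_of_Ev {z : ℤ} (h : Ev (z : ℚ)) : Even z := by
  rcases Int.even_or_odd z with h1 | ⟨w, hw⟩
  · exact h1
  · exfalso
    apply half_not_mem
    unfold Ev at h
    have h3 : (1 / 2 : ℚ) = (z : ℚ) / 2 - ((w : ℤ) : ℚ) := by rw [hw]; push_cast; ring
    rw [h3]
    exact (Zp 2).sub_mem h (intCast_mem_Zp _)

theorem Ev_of_val {x : ℚ} (h0 : x ≠ 0) (h : 1 ≤ padicValRat 2 x) : Ev x := by
  unfold Ev
  rw [mem_Zp_iff (div_ne_zero h0 (by norm_num)), padicValRat.div h0 (by norm_num), two_val]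
  omega

theorem vf_pow {n : ℕ} : vf n + 1 = n ↔ ∃ j, n = 2 ^ j := by
  constructor
  · induction n using Nat.strong_induction_on with
    | _ n ih =>
      intro h
      rcases Nat.even_or_odd' n with ⟨x, rfl | rfl⟩
      · rw [vf_even] at h
        have hx : 0 < x := by
          rcases Nat.eq_zero_or_pos x with h1 | h1
          · subst h1; rw [vf_zero] at h; norm_num at h
          · exact h1
        obtain ⟨j, hj⟩ := ih x (by omega) (by push_cast at h; linarith)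
        exact ⟨j + 1, by rw [hj, pow_succ]; ring⟩
      · rw [vf_odd] at h
        rcases Nat.eq_zero_or_pos x with h1 | h1
        · exact ⟨0, by subst h1; rfl⟩
        · have := vf_lt h1.ne'
          push_cast at h
          linarith
  · rintro ⟨j, rfl⟩
    induction j with
    | zero =>
      have := vf_odd 0
      rw [vf_zero] at this
      norm_num at this
      rw [pow_zero, this]
      norm_num
    | succ j ih =>
      rw [pow_succ', vf_even]
      push_cast at ih ⊢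
      linarith

theorem pair_ev (k c : ℕ) (h : ¬ (k = 0 ∧ c = 0)) : Ev (t (k + 1) (4 * c) + t k (4 * c + 2)) := by
  have hv1 := vf_lt (show k + 1 + c ≠ 0 by omega)
  have hv2 := vf_le c
  push_cast at hv1
  obtain ⟨e, he⟩ : ∃ e : ℕ, (e : ℤ) + 1 = (k + 1 + 2 * c) - vf (k + 1 + c) - vf c :=
    ⟨((k + 1 + 2 * c) - vf (k + 1 + c) - vf c - 1).toNat, by omega⟩
  obtain ⟨w, hw, h1⟩ := pair_form k c e he
  unfold Ev
  rw [h1]
  rcases Nat.eq_zero_or_pos e with h2 | h2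
  · subst h2
    have hc : c = 0 := by
      by_contra hc
      have := vf_lt hc
      omega
    subst hc
    rw [vf_zero] at he
    simp only [add_zero] at he
    obtain ⟨j, hj⟩ := (vf_pow (n := k + 1)).mp (by push_cast at he ⊢; linarith)
    have hj0 : j ≠ 0 := by
      rintro rfl
      apply h
      simp at hj
      exact ⟨hj, rfl⟩
    obtain ⟨i, rfl⟩ := Nat.exists_eq_succ_of_ne_zero hj0
    rw [hj]
    have e1 : (((2 * k + 3 + 4 * 0 : ℕ) : ℚ) * 4 ^ 0 * (((2 ^ (i + 1) : ℕ) : ℚ) + 2 * w)) / 2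
        = ((2 * k + 3 + 4 * 0 : ℕ) : ℚ) * (((2 ^ i : ℕ) : ℚ) + w) := by
      push_cast
      rw [pow_succ]
      ring
    rw [e1]
    exact (Zp 2).mul_mem (natCast_mem_Zp _) ((Zp 2).add_mem (natCast_mem_Zp _) hw)
  · obtain ⟨i, rfl⟩ : ∃ i, e = i + 1 := ⟨e - 1, by omega⟩
    have e1 : (((2 * k + 3 + 4 * c : ℕ) : ℚ) * 4 ^ (i + 1) * (((k + 1 : ℕ) : ℚ) + 2 * w)) / 2
        = ((2 * k + 3 + 4 * c : ℕ) : ℚ) * (((2 * 4 ^ i : ℕ)) : ℚ) *
          (((k + 1 : ℕ) : ℚ) + ((2 : ℕ) : ℚ) * w) := by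
      push_cast
      rw [pow_succ]
      ring
    rw [e1]
    exact (Zp 2).mul_mem ((Zp 2).mul_mem (natCast_mem_Zp _) (natCast_mem_Zp _))
      ((Zp 2).add_mem (natCast_mem_Zp _) ((Zp 2).mul_mem (natCast_mem_Zp _) hw))

theorem single_form (P e : ℕ) (he : (e : ℤ) + 1 = P - vf P) :
    ∃ w ∈ Zp 2, t 0 (4 * P) = ((4 * P + 1 : ℕ) : ℚ) * 16 ^ e * (1 + 8 * w) := by
  have hv : padicValRat 2 (T 0 (4 * P)) = ((2 * (e + 1) : ℕ) : ℤ) := by
    rw [T_val2, show 4 * 0 + 4 * P + 2 = 2 * (2 * P + 1) by ring, vf_even, vf_odd,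
      show 4 * P = 2 * (2 * P) by ring, vf_even, vf_even]
    push_cast
    linarith
  obtain ⟨w, hw, h⟩ := sq_form (T_ne 0 (4 * P)) _ hv
  refine ⟨w, hw, ?_⟩
  unfold t
  rw [h, pow_mul]
  push_cast
  rw [pow_succ]
  norm_num
  ring

theorem single_ev (P : ℕ) (h : ¬ ∃ j, P = 2 ^ j) (hP : 1 ≤ P) : Ev (t 0 (4 * P)) := by
  have hv := vf_lt (show P ≠ 0 by omega)
  have h2 : vf P + 1 ≠ P := fun h3 => h (vf_pow.mp h3)
  obtain ⟨e, he⟩ : ∃ e : ℕ, ((e + 1 : ℕ) : ℤ) + 1 = P - vf P :=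
    ⟨((P : ℤ) - vf P - 2).toNat, by push_cast; omega⟩
  obtain ⟨w, hw, h1⟩ := single_form P _ he
  unfold Ev
  rw [h1]
  have e1 : ((4 * P + 1 : ℕ) : ℚ) * 16 ^ (e + 1) * (1 + 8 * w) / 2
      = (((4 * P + 1) * 8 * 16 ^ e : ℕ) : ℚ) * (((1 : ℕ) : ℚ) + ((8 : ℕ) : ℚ) * w) := by
    push_cast
    rw [pow_succ]
    ring
  rw [e1]
  exact (Zp 2).mul_mem (natCast_mem_Zp _)
      ((Zp 2).add_mem (natCast_mem_Zp _) ((Zp 2).mul_mem (natCast_mem_Zp _) hw))

theorem single_odd (P : ℕ) (h : ∃ j, P = 2 ^ j) : Ev (t 0 (4 * P) - 1) := by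
  have h2 : vf P + 1 = P := vf_pow.mpr h
  obtain ⟨w, hw, h1⟩ := single_form P 0 (by push_cast; linarith)
  unfold Ev
  rw [h1]
  have e1 : (((4 * P + 1 : ℕ) : ℚ) * 16 ^ 0 * (1 + 8 * w) - 1) / 2
      = ((2 * P : ℕ) : ℚ) + (((4 * P + 1) * 4 : ℕ) : ℚ) * w := by
    push_cast
    ring
  rw [e1]
  exact (Zp 2).add_mem (natCast_mem_Zp _) ((Zp 2).mul_mem (natCast_mem_Zp _) hw)

/-- the terms are even when `n` is odd -/
theorem t_ev_odd (k r : ℕ) : Ev (t k (2 * r + 1)) := by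
  have ht : t k (2 * r + 1) ≠ 0 := (t_pos k (2 * r + 1)).ne'
  apply Ev_of_val ht
  have h16 : padicValRat 2 (16 : ℚ) = 4 := by
    rw [show (16 : ℚ) = 2 ^ 4 by norm_num, padicValRat.pow, two_val]; norm_num
  have hN : 1 ≤ padicValRat 2 ((2 * k + 1 + (2 * r + 1) : ℕ) : ℚ) := by
    rw [padicValRat.of_nat]
    have : 1 ≤ padicValNat 2 (2 * k + 1 + (2 * r + 1)) :=
      one_le_padicValNat_of_dvd (by omega) (by omega)
    exact_mod_cast this
  have hk : 0 ≤ padicValRat 2 ((2 * k + 1 : ℕ) : ℚ) := by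
    rw [padicValRat.of_nat]
    positivity
  have hT := T_val2 k (2 * r + 1)
  rw [show 4 * k + (2 * r + 1) + 2 = 2 * (2 * k + r + 1) + 1 by ring, vf_odd, vf_odd] at hT
  have h1 := vf_lt (show 2 * k + r + 1 ≠ 0 by omega)
  have h2 := vf_le r
  push_cast at hT h1
  unfold t
  have z1 : ((2 * k + 1 + (2 * r + 1) : ℕ) : ℚ) ≠ 0 := by positivity
  have z2 : ((2 * k + 1 : ℕ) : ℚ) ≠ 0 := by positivity
  rw [padicValRat.div (mul_ne_zero (mul_ne_zero z1 z2) (pow_ne_zero _ (T_ne _ _))) (by norm_num),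
    padicValRat.mul (mul_ne_zero z1 z2) (pow_ne_zero _ (T_ne _ _)), padicValRat.mul z1 z2,
    padicValRat.pow, h16, hT]
  push_cast at hN hk ⊢
  linarith

theorem sum_pairs (f : ℕ → ℚ) (P : ℕ) :
    ∑ j ∈ range (2 * P), f j = ∑ c ∈ range P, (f (2 * c) + f (2 * c + 1)) := by
  induction P with
  | zero => simp
  | succ P ih =>
    rw [show 2 * (P + 1) = 2 * P + 1 + 1 by ring, sum_range_succ, sum_range_succ, ih,
      sum_range_succ]
    ring

section

variable (a : ℕ → ℚ) (h1 : a 1 = 2)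
    (hrec : ∀ n : ℕ, 2 ≤ n → (2 * (n : ℚ) + 1) ^ 3 * a n = 32 * (n : ℚ) ^ 3 * a (n - 1) +
      (21 * (n : ℚ) ^ 3 + 22 * n ^ 2 + 8 * n + 1) * ((2 * n - 1).choose n : ℚ) ^ 4)

include h1 hrec

theorem a_odd (r : ℕ) : Ev (a (2 * r + 1)) := by
  rw [a_eq a h1 hrec _ (by omega)]
  refine Ev.sum fun k hk => ?_
  have hk' := Finset.mem_range.mp hk
  have := t_ev_odd k (r - k)
  rwa [show 2 * (r - k) + 1 = 2 * r + 1 - 2 * k by omega] at this

theorem a_even (M : ℕ) (hM : 1 ≤ M) : a (2 * M) = ∑ j ∈ range (M + 1), t (M - j) (2 * j) := by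
  rw [a_eq a h1 hrec _ (by omega), show 2 * M / 2 = M by omega,
    ← Finset.sum_range_reflect (fun j => t (M - j) (2 * j)) (M + 1)]
  refine Finset.sum_congr rfl fun k hk => ?_
  have hk' := Finset.mem_range.mp hk
  congr 1 <;> omega

theorem a_four (P : ℕ) (hP : 1 ≤ P) : ∃ y, Ev y ∧ a (4 * P) = y + t 0 (4 * P) := by
  have h := a_even a h1 hrec (2 * P) (by omega)
  rw [show 2 * (2 * P) = 4 * P by ring, sum_range_succ, sum_pairs, show 2 * P - 2 * P = 0 by omega,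
    show 2 * (2 * P) = 4 * P by ring] at h
  refine ⟨_, ?_, h⟩
  refine Ev.sum fun c hc => ?_
  have hc' := Finset.mem_range.mp hc
  have := pair_ev (2 * P - 2 * c - 1) c (by omega)
  rwa [show 2 * P - 2 * c - 1 + 1 = 2 * P - 2 * c by omega,
    show 4 * c = 2 * (2 * c) by ring, show 2 * (2 * c) + 2 = 2 * (2 * c + 1) by ring,
    show 2 * P - 2 * c - 1 = 2 * P - (2 * c + 1) by omega] at this

theorem a_four_two (P : ℕ) (hP : 1 ≤ P) : Ev (a (4 * P + 2)) := by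
  have h := a_even a h1 hrec (2 * P + 1) (by omega)
  rw [show 2 * (2 * P + 1) = 4 * P + 2 by ring, show 2 * P + 1 + 1 = 2 * (P + 1) by ring,
    sum_pairs] at h
  rw [h]
  refine Ev.sum fun c hc => ?_
  have hc' := Finset.mem_range.mp hc
  have := pair_ev (2 * P + 1 - 2 * c - 1) c (by omega)
  rwa [show 2 * P + 1 - 2 * c - 1 + 1 = 2 * P + 1 - 2 * c by omega,
    show 4 * c = 2 * (2 * c) by ring, show 2 * (2 * c) + 2 = 2 * (2 * c + 1) by ring,
    show 2 * P + 1 - 2 * c - 1 = 2 * P + 1 - (2 * c + 1) by omega] at this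

theorem a_two : a 2 = 181 := by
  have h := hrec 2 le_rfl
  norm_num [h1, Nat.choose] at h
  linarith

/-- The 2-adic behaviour of `a_n`. -/
theorem parity (n : ℕ) (hn : 1 ≤ n) :
    ((∃ k, 1 ≤ k ∧ n = 2 ^ k) → Ev (a n - 1)) ∧ ((¬ ∃ k, 1 ≤ k ∧ n = 2 ^ k) → Ev (a n)) := by
  have h4 : n % 4 = 0 ∨ n % 4 = 1 ∨ n % 4 = 2 ∨ n % 4 = 3 := by omega
  have hodd : n % 2 = 1 → ((∃ k, 1 ≤ k ∧ n = 2 ^ k) → Ev (a n - 1)) ∧
      ((¬ ∃ k, 1 ≤ k ∧ n = 2 ^ k) → Ev (a n)) := by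
    intro h
    obtain ⟨r, rfl⟩ : ∃ r, n = 2 * r + 1 := ⟨n / 2, by omega⟩
    refine ⟨?_, fun _ => a_odd a h1 hrec r⟩
    rintro ⟨k, hk, he⟩
    exfalso
    obtain ⟨i, rfl⟩ : ∃ i, k = i + 1 := ⟨k - 1, by omega⟩
    rw [pow_succ] at he
    omega
  rcases h4 with h | h | h | h
  · obtain ⟨P, rfl⟩ : ∃ P, n = 4 * P := ⟨n / 4, by omega⟩
    obtain ⟨y, hy, he⟩ := a_four a h1 hrec P (by omega)
    rw [he]
    constructor
    · rintro ⟨k, hk, he2⟩
      have : ∃ j, P = 2 ^ j := by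
        rcases k with _ | _ | k
        · omega
        · simp at he2; omega
        · refine ⟨k, ?_⟩
          rw [pow_succ, pow_succ] at he2
          omega
      have h5 := hy.add (single_odd P this)
      rwa [← add_sub_assoc] at h5
    · intro hne
      refine hy.add (single_ev P ?_ (by omega))
      rintro ⟨j, rfl⟩
      exact hne ⟨j + 2, by omega, by ring⟩
  · exact hodd (by omega)
  · obtain ⟨P, rfl⟩ : ∃ P, n = 4 * P + 2 := ⟨n / 4, by omega⟩
    rcases Nat.eq_zero_or_pos P with hP | hP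
    · subst hP
      refine ⟨fun _ => ?_, fun h3 => absurd ⟨1, le_rfl, by norm_num⟩ h3⟩
      rw [show 4 * 0 + 2 = 2 by norm_num, a_two a h1 hrec]
      unfold Ev
      have : ((181 : ℚ) - 1) / 2 = ((90 : ℕ) : ℚ) := by norm_num
      rw [this]
      exact natCast_mem_Zp _
    · refine ⟨?_, fun _ => a_four_two a h1 hrec P hP⟩
      rintro ⟨k, hk, he⟩
      exfalso
      rcases k with _ | _ | k
      · omega
      · simp at he; omega
      · rw [pow_succ, pow_succ] at he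
        omega
  · exact hodd (by omega)

theorem a_int (n : ℕ) (hn : 1 ≤ n) : ∃ z : ℤ, a n = z := by
  refine int_of_forall_mem fun p hp => ?_
  by_cases h2 : p = 2
  · subst h2
    have hpar := parity a h1 hrec n hn
    by_cases h : ∃ k, 1 ≤ k ∧ n = 2 ^ k
    · have := (Zp 2).add_mem (hpar.1 h).mem (one_mem (Zp 2))
      rwa [sub_add_cancel] at this
    · exact (hpar.2 h).mem
  · exact a_mem_odd h2 a h1 hrec n hn

end

end Pool.Agent.R440.D518
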