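import Mathlib
import Pool.Agent.R440.WZ
import Pool.Agent.R440.Loc
import Pool.Agent.R440.V2
import Pool.Agent.R440.D518.C

/-!
# MP_48d34c: a WZ pair for `∑ (168k³+76k²+14k+1) C(2k,k)^7 2^{-20k}` and divisibility
-/

set_option autoImplicit false

namespace Pool.Agent.R440.D518.Gou

open Finset Nat Pool.Agent.R440 Pool.Agent.R440.D518

/-- the WZ seed -/
noncomputable def F (n k : ℕ) : ℚ :=
  (2 * (k : ℚ) + 1) * (n : ℚ) ^ 3 * (2 * n - 1) * ((2 * n)! : ℚ) * hg (n : ℤ) ^ 2 *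
    rf (n : ℤ) ^ 4 / 256 ^ n *
    (hg ((n : ℤ) + 2 * k) * hg ((n : ℤ) - 2 * k - 2) * rf ((n : ℤ) + k) *
      rf ((n : ℤ) - k - 1)) ^ 2

/-- the certificate -/
noncomputable def R (n k : ℕ) : ℚ :=
  ((2 * n)! : ℚ) * hg (n : ℤ) ^ 2 * rf (n : ℤ) ^ 4 / 256 ^ n *
    (hg ((n : ℤ) + 2 * k) * hg ((n : ℤ) - 2 * k) * rf ((n : ℤ) + k) * rf ((n : ℤ) - k)) ^ 2 *
    (-(1 / 512) * ((168 * (n : ℚ) ^ 3 + 76 * n ^ 2 + 14 * n + 1) -
      16 * (6 * n + 1) * (k : ℚ) ^ 2))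

/-- the summand -/
noncomputable def s (n : ℕ) : ℚ :=
  (168 * (n : ℚ) ^ 3 + 76 * n ^ 2 + 14 * n + 1) * ((2 * n).choose n : ℚ) ^ 7 /
    (512 * (2 ^ 20) ^ n)

theorem hg2 (x : ℤ) : hg (x + 2) = ((x : ℚ) + 3 / 2) * ((x : ℚ) + 1 / 2) * hg x := by
  rw [show x + 2 = x + 1 + 1 by ring, hg_step, hg_step]; push_cast; ring

theorem wz (n k : ℕ) : F (n + 1) k - 1 * F n k = R n (k + 1) - R n k := by
  unfold F R
  have e1 : rf (((n + 1 : ℕ) : ℤ) + k) = rf ((n : ℤ) + k + 1) := by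
    rw [show ((n + 1 : ℕ) : ℤ) + k = (n : ℤ) + k + 1 by push_cast; ring]
  have e2 : rf (((n + 1 : ℕ) : ℤ) - k - 1) = rf ((n : ℤ) - k) := by
    rw [show ((n + 1 : ℕ) : ℤ) - k - 1 = (n : ℤ) - k by push_cast; ring]
  have e3 : rf ((n : ℤ) + k) = ((n : ℚ) + k + 1) * rf ((n : ℤ) + k + 1) := by
    rw [rf_step]; push_cast; ring
  have e4 : rf ((n : ℤ) - k - 1) = ((n : ℚ) - k) * rf ((n : ℤ) - k) := by
    rw [rf_step, show (n : ℤ) - k - 1 + 1 = (n : ℤ) - k by ring]; push_cast; ring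
  have e6 : rf ((n : ℤ) + (k + 1 : ℕ)) = rf ((n : ℤ) + k + 1) := by
    rw [show (n : ℤ) + (k + 1 : ℕ) = (n : ℤ) + k + 1 by push_cast; ring]
  have e7 : rf ((n : ℤ) - (k + 1 : ℕ)) = ((n : ℚ) - k) * rf ((n : ℤ) - k) := by
    rw [rf_step, show (n : ℤ) - (k + 1 : ℕ) + 1 = (n : ℤ) - k by push_cast; ring]
    push_cast; ring
  have e8 : rf (n : ℤ) = ((n : ℚ) + 1) * rf ((n + 1 : ℕ) : ℤ) := by
    rw [rf_step]; push_cast; ring
  have g1 : hg (((n + 1 : ℕ) : ℤ) + 2 * k) = ((n : ℚ) + 2 * k + 1 / 2) * hg ((n : ℤ) + 2 * k) := by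
    rw [show ((n + 1 : ℕ) : ℤ) + 2 * k = ((n : ℤ) + 2 * k) + 1 by push_cast; ring, hg_step]
    push_cast; ring
  have g2 : hg (((n + 1 : ℕ) : ℤ) - 2 * k - 2) =
      ((n : ℚ) - 2 * k - 3 / 2) * hg ((n : ℤ) - 2 * k - 2) := by
    rw [show ((n + 1 : ℕ) : ℤ) - 2 * k - 2 = ((n : ℤ) - 2 * k - 2) + 1 by push_cast; ring, hg_step]
    push_cast; ring
  have g3 : hg ((n + 1 : ℕ) : ℤ) = ((n : ℚ) + 1 / 2) * hg (n : ℤ) := by
    rw [show ((n + 1 : ℕ) : ℤ) = (n : ℤ) + 1 by push_cast; ring, hg_step]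
    push_cast; ring
  have g4 : hg ((n : ℤ) + 2 * (k + 1 : ℕ)) = ((n : ℚ) + 2 * k + 3 / 2) *
      ((n : ℚ) + 2 * k + 1 / 2) * hg ((n : ℤ) + 2 * k) := by
    rw [show (n : ℤ) + 2 * (k + 1 : ℕ) = ((n : ℤ) + 2 * k) + 2 by push_cast; ring, hg2]
    push_cast; ring
  have g5 : hg ((n : ℤ) - 2 * (k + 1 : ℕ)) = hg ((n : ℤ) - 2 * k - 2) := by
    congr 1; push_cast; ring
  have g6 : hg ((n : ℤ) - 2 * k) = ((n : ℚ) - 2 * k - 1 / 2) * ((n : ℚ) - 2 * k - 3 / 2) *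
      hg ((n : ℤ) - 2 * k - 2) := by
    rw [show (n : ℤ) - 2 * k = ((n : ℤ) - 2 * k - 2) + 2 by ring, hg2]
    push_cast; ring
  have f1 : ((2 * (n + 1))! : ℚ) = (2 * n + 2) * (2 * n + 1) * ((2 * n)! : ℚ) := by
    rw [show 2 * (n + 1) = 2 * n + 1 + 1 by ring, Nat.factorial_succ, Nat.factorial_succ]
    push_cast; ring
  rw [e1, e2, e3, e4, e6, e7, e8, g1, g2, g3, g4, g5, g6, f1, pow_succ (256 : ℚ) n]
  have z : (256 : ℚ) ^ n ≠ 0 := by positivity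
  clear e1 e2 e3 e4 e6 e7 e8 g1 g2 g3 g4 g5 g6 f1
  generalize hg ((n : ℤ) + 2 * k) = H1
  generalize hg ((n : ℤ) - 2 * k - 2) = H2
  generalize hg (n : ℤ) = H3
  generalize rf ((n : ℤ) - k) = H4
  generalize rf ((n : ℤ) + k + 1) = H5
  generalize rf ((n + 1 : ℕ) : ℤ) = H6
  generalize ((2 * n)! : ℚ) = H7
  generalize (256 : ℚ) ^ n = H8 at *
  push_cast
  field_simp
  ring

theorem R_zero (n : ℕ) : R n 0 = - s n := by
  unfold R s
  have h1 : rf ((n : ℤ) + (0 : ℕ)) = 1 / (n ! : ℚ) := by rw [← rf_nat n]; simp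
  have h2 : rf ((n : ℤ) - (0 : ℕ)) = 1 / (n ! : ℚ) := by rw [← rf_nat n]; simp
  have h3 : hg ((n : ℤ) + 2 * (0 : ℕ)) = hg (n : ℤ) := by simp
  have h4 : hg ((n : ℤ) - 2 * (0 : ℕ)) = hg (n : ℤ) := by simp
  have h6 : ((2 : ℚ) ^ 20) ^ n = (4 ^ n) ^ 6 * 256 ^ n := by
    rw [← pow_mul (4 : ℚ) n 6, mul_comm n 6, pow_mul (4 : ℚ) 6 n, ← mul_pow]; norm_num
  rw [h1, h2, h3, h4, hg_nat, rf_nat, choose_two_mul, h6]
  have z2 : (n ! : ℚ) ≠ 0 := by positivity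
  have z3 : ((2 * n)! : ℚ) ≠ 0 := by positivity
  have z : (256 : ℚ) ^ n ≠ 0 := by positivity
  have z' : (4 : ℚ) ^ n ≠ 0 := by positivity
  simp only [Nat.cast_zero]
  generalize (256 : ℚ) ^ n = H8 at *
  generalize (4 : ℚ) ^ n = H9 at *
  field_simp
  ring

theorem R_top (n : ℕ) : R n (n + 1) = 0 := by
  unfold R
  rw [rf_neg (by push_cast; omega : (n : ℤ) - ((n + 1 : ℕ) : ℤ) < 0)]
  ring

theorem F_top (n : ℕ) : F n n = 0 := by
  unfold F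
  rw [rf_neg (by omega : (n : ℤ) - n - 1 < 0)]
  ring

theorem sum_s (N : ℕ) : ∑ j ∈ range N, s j = ∑ k ∈ range N, F N k := by
  have h := wz_sum 1 s F R (fun n k _ => wz n k) R_zero R_top F_top N
  rw [← h]
  refine Finset.sum_congr rfl fun j _ => ?_
  rw [one_pow, mul_one]

/-- the basic quotient, `N = k+1+m` -/
noncomputable def U (k m : ℕ) : ℚ :=
  hg (3 * (k : ℤ) + m + 1) * hg ((m : ℤ) - k - 1) / (((2 * k + m + 1)! : ℚ) * (m ! : ℚ))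

/-- scaled version -/
noncomputable def X (k m : ℕ) : ℚ := 16 ^ (k + m) * U k m

/-- the terms, `N = k+1+m` -/
noncomputable def t (k m : ℕ) : ℚ :=
  ((2 * (k + m) + 1 : ℕ) : ℚ) * ((2 * k + 1 : ℕ) : ℚ) * X k m ^ 2 / 16

theorem F_eq (k m : ℕ) : (2 ^ 20) ^ (k + m) * (512 * F (k + 1 + m) k)
    = 2 * ((k + 1 + m : ℕ) : ℚ) ^ 3 * ((2 * (k + 1 + m)).choose (k + 1 + m) : ℚ) ^ 3 *
      t k m := by
  unfold F t X U
  have h1 : rf (((k + 1 + m : ℕ) : ℤ) + k) = 1 / ((2 * k + m + 1)! : ℚ) := by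
    rw [← rf_nat]; congr 1; push_cast; ring
  have h2 : rf (((k + 1 + m : ℕ) : ℤ) - k - 1) = 1 / (m ! : ℚ) := by
    rw [← rf_nat]; congr 1; push_cast; ring
  have h3 : hg (((k + 1 + m : ℕ) : ℤ) + 2 * k) = hg (3 * (k : ℤ) + m + 1) := by
    congr 1; push_cast; ring
  have h4 : hg (((k + 1 + m : ℕ) : ℤ) - 2 * k - 2) = hg ((m : ℤ) - k - 1) := by
    congr 1; push_cast; ring
  rw [h1, h2, h3, h4, hg_nat, rf_nat, choose_two_mul]
  have e1 : ((2 : ℚ) ^ 20) ^ (k + m) = (4 ^ k) ^ 10 * (4 ^ m) ^ 10 := by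
    rw [← pow_mul, ← pow_mul, ← pow_mul, show (4 : ℚ) = 2 ^ 2 by norm_num, ← pow_mul, ← pow_mul,
      ← pow_add]
    congr 1; ring
  have e2 : (256 : ℚ) ^ (k + 1 + m) = 256 * (4 ^ k) ^ 4 * (4 ^ m) ^ 4 := by
    rw [← pow_mul, ← pow_mul, show (256 : ℚ) = 4 ^ 4 by norm_num, ← pow_mul, ← pow_add, ← pow_add]
    congr 1; ring
  have e3 : (4 : ℚ) ^ (k + 1 + m) = 4 * 4 ^ k * 4 ^ m := by
    rw [pow_add, pow_add]; ring
  have e4 : (16 : ℚ) ^ (k + m) = (4 ^ k) ^ 2 * (4 ^ m) ^ 2 := by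
    rw [← pow_mul, ← pow_mul, show (16 : ℚ) = 4 ^ 2 by norm_num, ← pow_mul, ← pow_add]
    congr 1; ring
  rw [e1, e2, e3, e4]
  have z1 : ((k + 1 + m)! : ℚ) ≠ 0 := by positivity
  have z2 : ((2 * (k + 1 + m))! : ℚ) ≠ 0 := by positivity
  have z7 : ((2 * k + m + 1)! : ℚ) ≠ 0 := by positivity
  have z8 : (m ! : ℚ) ≠ 0 := by positivity
  have z9 : (4 : ℚ) ^ k ≠ 0 := by positivity
  have z10 : (4 : ℚ) ^ m ≠ 0 := by positivity
  generalize ((k + 1 + m)! : ℚ) = A1 at *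
  generalize ((2 * (k + 1 + m))! : ℚ) = A2 at *
  generalize ((2 * k + m + 1)! : ℚ) = A7 at *
  generalize (m ! : ℚ) = A8 at *
  generalize (4 : ℚ) ^ k = A9 at *
  generalize (4 : ℚ) ^ m = A10 at *
  generalize hg (3 * (k : ℤ) + m + 1) = A3 at *
  generalize hg ((m : ℤ) - k - 1) = A4 at *
  push_cast
  field_simp
  ring

/-- closed form of the normalised partial sums -/
theorem closed (n : ℕ) : (2 ^ 20) ^ n * (512 * ∑ j ∈ range (n + 1), s j) =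
    2 * ((n + 1 : ℕ) : ℚ) ^ 3 * ((2 * (n + 1)).choose (n + 1) : ℚ) ^ 3 *
      ∑ k ∈ range (n + 1), t k (n - k) := by
  rw [sum_s, Finset.mul_sum, Finset.mul_sum, Finset.mul_sum]
  refine Finset.sum_congr rfl fun k hk => ?_
  have hk' := Finset.mem_range.mp hk
  obtain ⟨m, rfl⟩ : ∃ m, n = k + m := ⟨n - k, by omega⟩
  have h := F_eq k m
  rw [show k + 1 + m = k + m + 1 by ring] at h
  rw [show k + m - k = m by omega]
  exact h

/-- valuation count of `(2N-1)(2k+1) U²` at the prime power `q` -/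
def W (q n k : ℤ) : ℤ :=
  ((2 * n - 1) / q - (2 * n - 2) / q) + ((2 * k + 1) / q - (2 * k) / q) +
    2 * ((2 * (n + 2 * k) + q) / (2 * q) + (2 * (n - 2 * k - 2) + q) / (2 * q) -
      ((n - k - 1) / q + (n + k) / q))

theorem W_nonneg (q n k : ℤ) (hq : 3 ≤ q) (hodd : q % 2 = 1) : 0 ≤ W q n k := by
  have h0 : q ≠ 0 := by omega
  have hq0 : 0 < q := by omega
  have h20 : 2 * q ≠ 0 := by omega
  obtain ⟨b, y, hy0, hy1, rfl⟩ : ∃ b y : ℤ, 0 ≤ y ∧ y < q ∧ k = y + q * b :=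
    ⟨k / q, k % q, Int.emod_nonneg _ h0, Int.emod_lt_of_pos _ hq0, (Int.emod_add_mul_ediv k q).symm⟩
  obtain ⟨c, u, hu0, hu1, rfl⟩ : ∃ c u : ℤ, 0 ≤ u ∧ u < q ∧ n = u + q * c :=
    ⟨n / q, n % q, Int.emod_nonneg _ h0, Int.emod_lt_of_pos _ hq0, (Int.emod_add_mul_ediv n q).symm⟩
  unfold W
  rw [show 2 * (u + q * c) - 1 = (2 * u - 1) + q * (2 * c) by ring,
    show 2 * (u + q * c) - 2 = (2 * u - 2) + q * (2 * c) by ring,
    show 2 * (y + q * b) + 1 = (2 * y + 1) + q * (2 * b) by ring,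
    show 2 * (u + q * c + 2 * (y + q * b)) + q
      = (2 * u + 4 * y + q) + (2 * q) * (c + 2 * b) by ring,
    show 2 * (u + q * c - 2 * (y + q * b) - 2) + q
      = (2 * u - 4 * y - 4 + q) + (2 * q) * (c - 2 * b) by ring,
    show u + q * c - (y + q * b) - 1 = (u - y - 1) + q * (c - b) by ring,
    show u + q * c + (y + q * b) = (u + y) + q * (c + b) by ring,
    show 2 * (y + q * b) = 2 * y + q * (2 * b) by ring]
  simp only [Int.add_mul_ediv_left _ _ h0, Int.add_mul_ediv_left _ _ h20]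
  obtain ⟨l1, u1, c1, d1⟩ := fl_spec (2 * u - 1) q (-1) 1 hq0 (by linarith) (by linarith)
  obtain ⟨l2, u2, c2, d2⟩ := fl_spec (2 * u - 2) q (-1) 1 hq0 (by linarith) (by linarith)
  obtain ⟨l3, u3, c3, d3⟩ := fl_spec (2 * y + 1) q 0 1 hq0 (by linarith) (by linarith)
  obtain ⟨l4, u4, c4, d4⟩ := fl_spec (2 * y) q 0 1 hq0 (by linarith) (by linarith)
  obtain ⟨l5, u5, c5, d5⟩ := fl_spec (2 * u + 4 * y + q) (2 * q) 0 3 (by omega) (by linarith) (by linarith)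
  obtain ⟨l6, u6, c6, d6⟩ := fl_spec (2 * u - 4 * y - 4 + q) (2 * q) (-2) 1 (by omega) (by linarith) (by linarith)
  obtain ⟨l7, u7, c7, d7⟩ := fl_spec (u - y - 1) q (-1) 0 hq0 (by linarith) (by linarith)
  obtain ⟨l8, u8, c8, d8⟩ := fl_spec (u + y) q 0 1 hq0 (by linarith) (by linarith)
  generalize (2 * u - 1) / q = X1 at *
  generalize (2 * u - 2) / q = X2 at *
  generalize (2 * y + 1) / q = X3 at *
  generalize (2 * y) / q = X4 at *
  generalize (2 * u + 4 * y + q) / (2 * q) = X5 at *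
  generalize (2 * u - 4 * y - 4 + q) / (2 * q) = X6 at *
  generalize (u - y - 1) / q = X7 at *
  generalize (u + y) / q = X8 at *
  obtain ⟨r, rfl⟩ : ∃ r, q = 2 * r + 1 := ⟨q / 2, by omega⟩
  interval_cases X1 <;> interval_cases X2 <;> (try omega) <;> interval_cases X3 <;>
    interval_cases X4 <;> (try omega) <;>
    interval_cases X7 <;> (try omega) <;> interval_cases X8 <;> (try omega) <;>
    interval_cases X5 <;> (try omega) <;> interval_cases X6 <;> omega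

theorem U_ne (k m : ℕ) : U k m ≠ 0 := by
  unfold U
  exact div_ne_zero (mul_ne_zero (hg_ne_zero _) (hg_ne_zero _)) (by positivity)

theorem X_ne (k m : ℕ) : X k m ≠ 0 := by
  unfold X
  exact mul_ne_zero (by positivity) (U_ne k m)

theorem t_mem {p : ℕ} [hp : Fact p.Prime] (h2 : p ≠ 2) (k m : ℕ) : t k m ∈ Zp p := by
  have h16 : (1 / ((16 : ℕ) : ℚ)) ∈ Zp p := by
    refine inv_nat_mem_Zp fun h => h2 ?_
    have : p ∣ 2 ^ 4 := by simpa using h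
    exact (Nat.prime_dvd_prime_iff_eq hp.out Nat.prime_two).mp (hp.out.dvd_of_dvd_pow this)
  have e : t k m = (((2 * (k + m) + 1 : ℕ) : ℚ) * ((2 * k + 1 : ℕ) : ℚ) * (U k m * U k m)) *
      ((((16 ^ (k + m)) ^ 2 : ℕ) : ℚ) * (1 / ((16 : ℕ) : ℚ))) := by
    unfold t X; push_cast; ring
  rw [e]
  refine (Zp p).mul_mem ?_ ((Zp p).mul_mem (natCast_mem_Zp _) h16)
  have hU : HasVal p (U k m) (fun i => (2 * (3 * (k : ℤ) + m + 1) + (p : ℤ) ^ i) / (2 * (p : ℤ) ^ i) +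
      (2 * ((m : ℤ) - k - 1) + (p : ℤ) ^ i) / (2 * (p : ℤ) ^ i) -
      ((2 * (k : ℤ) + m + 1) / (p : ℤ) ^ i + (m : ℤ) / (p : ℤ) ^ i)) := by
    unfold U
    refine (((HasVal.hgv h2 (3 * (k : ℤ) + m + 1)).mul (HasVal.hgv h2 ((m : ℤ) - k - 1))).div
      ((HasVal.fac (2 * k + m + 1)).mul (HasVal.fac m))).congr fun i _ => ?_
    push_cast
    rfl
  refine (((val_nat (p := p) (n := 2 * (k + m) + 1) (by omega)).mul
    (val_nat (p := p) (n := 2 * k + 1) (by omega))).mul (hU.mul hU)).mem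
      fun l hl => ?_
  have hodd : 3 ≤ (p : ℤ) ^ l ∧ ((p : ℤ) ^ l) % 2 = 1 := by
    have h1 : Odd p := hp.out.odd_of_ne_two h2
    have h3 : Odd (p ^ l) := h1.pow
    have h4 : (p ^ l) % 2 = 1 := Nat.odd_iff.mp h3
    have h5 := two_le_pow' hp.out hl
    have h6 : 2 ≤ p ^ l := by exact_mod_cast h5
    have h7 : 3 ≤ p ^ l := by omega
    exact ⟨by exact_mod_cast h7, by exact_mod_cast h4⟩
  have h6 := W_nonneg _ ((k : ℤ) + 1 + m) k hodd.1 hodd.2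
  unfold W at h6
  push_cast
  rw [show 2 * ((k : ℤ) + 1 + m) - 1 = 2 * (k + m) + 1 by ring,
    show 2 * ((k : ℤ) + 1 + m) - 2 = 2 * (k + m) + 1 - 1 by ring,
    show (k : ℤ) + 1 + m + 2 * k = 3 * k + m + 1 by ring,
    show (k : ℤ) + 1 + m - 2 * k - 2 = m - k - 1 by ring,
    show (k : ℤ) + 1 + m - k - 1 = m by ring,
    show (k : ℤ) + 1 + m + k = 2 * k + m + 1 by ring] at h6
  rw [show 2 * (k : ℤ) + 1 - 1 = 2 * k by ring]
  linarith

/-- the 2-adic valuation of `hg` -/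
theorem val_hg (x : ℤ) : padicValRat 2 (hg x) = -x := by
  have h4 : padicValRat 2 (4 : ℚ) = 2 := by
    rw [show (4 : ℚ) = 2 ^ 2 by norm_num, padicValRat.pow, two_val]; norm_num
  rcases lt_or_ge x 0 with h | h
  · obtain ⟨m, rfl⟩ : ∃ m : ℕ, x = -(m : ℤ) := ⟨(-x).toNat, by omega⟩
    rw [hg_neg, padicValRat.div (by positivity) (by positivity),
      padicValRat.mul (by positivity) (by positivity), padicValRat.pow, padicValRat.neg, h4,
      val_fac, val_fac, vf_even]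
    ring
  · obtain ⟨m, rfl⟩ : ∃ m : ℕ, x = m := ⟨x.toNat, by omega⟩
    rw [hg_nat, padicValRat.div (by positivity) (by positivity),
      padicValRat.mul (by positivity) (by positivity), padicValRat.pow, h4,
      val_fac, val_fac, vf_even]
    ring

theorem X_val (k m : ℕ) : padicValRat 2 (X k m) = 2 * (k + m) - vf m - vf (2 * k + m + 1) := by
  have h16 : padicValRat 2 (16 : ℚ) = 4 := by
    rw [show (16 : ℚ) = 2 ^ 4 by norm_num, padicValRat.pow, two_val]; norm_num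
  have z7 : ((2 * k + m + 1)! : ℚ) ≠ 0 := by positivity
  have z8 : (m ! : ℚ) ≠ 0 := by positivity
  unfold X
  rw [padicValRat.mul (by positivity) (U_ne k m), padicValRat.pow, h16]
  unfold U
  rw [padicValRat.div (mul_ne_zero (hg_ne_zero _) (hg_ne_zero _)) (by positivity),
    padicValRat.mul (hg_ne_zero _) (hg_ne_zero _), padicValRat.mul z7 z8, val_hg, val_hg, val_fac,
    val_fac]
  push_cast
  ring

/-- pairs of terms are `2`-integral -/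
theorem pair_mem (k c : ℕ) : t (k + 1) (2 * c) + t k (2 * c + 1) ∈ Zp 2 := by
  have hv1 := vf_lt (show k + 1 + c ≠ 0 by omega)
  have hv2 := vf_le c
  push_cast at hv1
  obtain ⟨e, he⟩ : ∃ e : ℕ, (e : ℤ) + 1 = (k + 1 + 2 * c) - vf (k + 1 + c) - vf c :=
    ⟨((k + 1 + 2 * c) - vf (k + 1 + c) - vf c - 1).toNat, by omega⟩
  have ha : padicValRat 2 (X (k + 1) (2 * c)) = ((e + 1 : ℕ) : ℤ) := by
    rw [X_val, show 2 * (k + 1) + 2 * c + 1 = 2 * (k + 1 + c) + 1 by ring, vf_odd, vf_even]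
    push_cast
    linarith
  have hb : padicValRat 2 (X k (2 * c + 1)) = ((e + 1 : ℕ) : ℤ) := by
    rw [X_val, show 2 * k + (2 * c + 1) + 1 = 2 * (k + 1 + c) by ring, vf_odd, vf_even]
    push_cast
    linarith
  obtain ⟨w1, hw1, h1⟩ := sq_form (X_ne (k + 1) (2 * c)) (e + 1) ha
  obtain ⟨w2, hw2, h2⟩ := sq_form (X_ne k (2 * c + 1)) (e + 1) hb
  have h3 : t (k + 1) (2 * c) + t k (2 * c + 1) =
      (((2 * (k + 1 + 2 * c) + 1) * 4 ^ e : ℕ) : ℚ) * (((k + 1 : ℕ) : ℚ) + ((2 : ℕ) : ℚ) *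
        (((2 * k + 3 : ℕ) : ℚ) * w1 + ((2 * k + 1 : ℕ) : ℚ) * w2)) := by
    unfold t
    rw [h1, h2, pow_succ]
    push_cast
    ring
  rw [h3]
  exact (Zp 2).mul_mem (natCast_mem_Zp _) ((Zp 2).add_mem (natCast_mem_Zp _)
    ((Zp 2).mul_mem (natCast_mem_Zp _) ((Zp 2).add_mem ((Zp 2).mul_mem (natCast_mem_Zp _) hw1)
      ((Zp 2).mul_mem (natCast_mem_Zp _) hw2))))

theorem single_mem (P : ℕ) (hP : 1 ≤ P) : t 0 (2 * P) ∈ Zp 2 := by
  have hv := vf_lt (show P ≠ 0 by omega)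
  obtain ⟨e, he⟩ : ∃ e : ℕ, (e : ℤ) + 1 = P - vf P := ⟨((P : ℤ) - vf P - 1).toNat, by omega⟩
  have hX : padicValRat 2 (X 0 (2 * P)) = ((2 * (e + 1) : ℕ) : ℤ) := by
    rw [X_val, show 2 * 0 + 2 * P + 1 = 2 * P + 1 by ring, vf_even, vf_odd]
    push_cast
    linarith
  obtain ⟨w, hw, h⟩ := sq_form (X_ne 0 (2 * P)) _ hX
  have h3 : t 0 (2 * P) = (((2 * (2 * P) + 1) * 16 ^ e : ℕ) : ℚ) *
      (((1 : ℕ) : ℚ) + ((8 : ℕ) : ℚ) * w) := by
    unfold t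
    rw [h, pow_mul, pow_succ]
    push_cast
    norm_num
    ring
  rw [h3]
  exact (Zp 2).mul_mem (natCast_mem_Zp _) ((Zp 2).add_mem (natCast_mem_Zp _)
    ((Zp 2).mul_mem (natCast_mem_Zp _) hw))

theorem sum_mem_two (n : ℕ) (hn : 1 ≤ n) : ∑ k ∈ range (n + 1), t k (n - k) ∈ Zp 2 := by
  have h : ∑ k ∈ range (n + 1), t k (n - k) = ∑ j ∈ range (n + 1), t (n - j) j := by
    rw [← Finset.sum_range_reflect (fun j => t (n - j) j) (n + 1)]
    refine Finset.sum_congr rfl fun k hk => ?_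
    have hk' := Finset.mem_range.mp hk
    congr 1 <;> omega
  rw [h]
  rcases Nat.even_or_odd' n with ⟨P, rfl | rfl⟩
  · rw [sum_range_succ, sum_pairs, Nat.sub_self]
    refine (Zp 2).add_mem ((Zp 2).sum_mem fun c hc => ?_) (single_mem P (by omega))
    have hc' := Finset.mem_range.mp hc
    have := pair_mem (2 * P - 2 * c - 1) c
    rwa [show 2 * P - 2 * c - 1 + 1 = 2 * P - 2 * c by omega,
      show 2 * P - 2 * c - 1 = 2 * P - (2 * c + 1) by omega] at this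
  · rw [show 2 * P + 1 + 1 = 2 * (P + 1) by ring, sum_pairs]
    refine (Zp 2).sum_mem fun c hc => ?_
    have hc' := Finset.mem_range.mp hc
    have := pair_mem (2 * P + 1 - 2 * c - 1) c
    rwa [show 2 * P + 1 - 2 * c - 1 + 1 = 2 * P + 1 - 2 * c by omega,
      show 2 * P + 1 - 2 * c - 1 = 2 * P + 1 - (2 * c + 1) by omega] at this

theorem sum_int (n : ℕ) (hn : 1 ≤ n) : ∃ z : ℤ, ∑ k ∈ range (n + 1), t k (n - k) = z := by
  refine int_of_forall_mem fun p hp => ?_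
  by_cases h2 : p = 2
  · subst h2
    exact sum_mem_two n hn
  · exact (Zp p).sum_mem fun k _ => t_mem h2 _ _

/-- the second divisibility of Q2 -/
theorem dvd_G (n : ℕ) (hn : 1 < n) : 2 * n ^ 3 * ((2 * n).choose n) ^ 3 ∣
    ∑ k ∈ range n, (168 * k ^ 3 + 76 * k ^ 2 + 14 * k + 1) * ((2 * k).choose k) ^ 7 *
      2 ^ (20 * (n - 1 - k)) := by
  obtain ⟨m, rfl⟩ : ∃ m, n = m + 1 := ⟨n - 1, by omega⟩
  obtain ⟨z, hz⟩ := sum_int m (by omega)
  have h := closed m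
  rw [hz] at h
  have h1 : ((∑ k ∈ range (m + 1), (168 * k ^ 3 + 76 * k ^ 2 + 14 * k + 1) * ((2 * k).choose k) ^ 7 *
      2 ^ (20 * (m + 1 - 1 - k)) : ℕ) : ℚ) = (2 ^ 20) ^ m * (512 * ∑ j ∈ range (m + 1), s j) := by
    rw [Finset.mul_sum, Finset.mul_sum]
    push_cast
    refine Finset.sum_congr rfl fun k hk => ?_
    have hk' := Finset.mem_range.mp hk
    unfold s
    obtain ⟨j, rfl⟩ : ∃ j, m = k + j := ⟨m - k, by omega⟩
    rw [show k + j - k = j by omega, pow_add ((2 : ℚ) ^ 20) k j, pow_mul]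
    have z1 : ((2 : ℚ) ^ 20) ^ k ≠ 0 := by positivity
    generalize ((2 : ℚ) ^ 20) ^ k = A1 at *
    generalize ((2 : ℚ) ^ 20) ^ j = A2 at *
    field_simp
  rw [h] at h1
  have h2 : ((∑ k ∈ range (m + 1), (168 * k ^ 3 + 76 * k ^ 2 + 14 * k + 1) * ((2 * k).choose k) ^ 7 *
      2 ^ (20 * (m + 1 - 1 - k)) : ℕ) : ℤ) =
      ((2 * (m + 1) ^ 3 * ((2 * (m + 1)).choose (m + 1)) ^ 3 : ℕ) : ℤ) * z := by
    have : (((∑ k ∈ range (m + 1), (168 * k ^ 3 + 76 * k ^ 2 + 14 * k + 1) *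
        ((2 * k).choose k) ^ 7 * 2 ^ (20 * (m + 1 - 1 - k)) : ℕ) : ℤ) : ℚ) =
        ((((2 * (m + 1) ^ 3 * ((2 * (m + 1)).choose (m + 1)) ^ 3 : ℕ) : ℤ) * z : ℤ) : ℚ) := by
      rw [Int.cast_natCast, h1]
      push_cast
      ring
    exact_mod_cast this
  exact_mod_cast Dvd.intro z h2.symm

end Pool.Agent.R440.D518.Gou
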