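import Mathlib
import Pool.Agent.R440.D518.C

/-!
# The divisibility form of MP_d51828 Q1 (first half of MP_48d34c Q2)
-/

set_option autoImplicit false

namespace Pool.Agent.R440.D518

open Finset Nat Pool.Agent.R440

/-- the recurrence sequence -/
noncomputable def aseq : ℕ → ℚ
  | 0 => 0
  | 1 => 2
  | (n + 2) => (32 * ((n + 2 : ℕ) : ℚ) ^ 3 * aseq (n + 1) +
      (21 * ((n + 2 : ℕ) : ℚ) ^ 3 + 22 * ((n + 2 : ℕ) : ℚ) ^ 2 + 8 * ((n + 2 : ℕ) : ℚ) + 1) *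
        ((2 * (n + 2) - 1).choose (n + 2) : ℚ) ^ 4) / (2 * ((n + 2 : ℕ) : ℚ) + 1) ^ 3

theorem aseq_rec (n : ℕ) (hn : 2 ≤ n) : (2 * (n : ℚ) + 1) ^ 3 * aseq n =
    32 * (n : ℚ) ^ 3 * aseq (n - 1) +
      (21 * (n : ℚ) ^ 3 + 22 * n ^ 2 + 8 * n + 1) * ((2 * n - 1).choose n : ℚ) ^ 4 := by
  obtain ⟨m, rfl⟩ : ∃ m, n = m + 2 := ⟨n - 2, by omega⟩
  rw [show m + 2 - 1 = m + 1 by omega, aseq]
  have : (2 * ((m + 2 : ℕ) : ℚ) + 1) ^ 3 ≠ 0 := by positivity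
  rw [mul_div_cancel₀ _ this]

theorem dvd_F (n : ℕ) (hn : 1 < n) : 2 * n ^ 3 * ((2 * n).choose n) ^ 3 ∣
    ∑ k ∈ range n, (21 * k ^ 3 + 22 * k ^ 2 + 8 * k + 1) * ((2 * k).choose k) ^ 7 *
      256 ^ (n - 1 - k) := by
  obtain ⟨m, rfl⟩ : ∃ m, n = m + 1 := ⟨n - 1, by omega⟩
  have ha1 : aseq 1 = 2 := by rw [aseq]
  obtain ⟨z, hz⟩ := a_int aseq ha1 aseq_rec m (by omega)
  have h := a_closed aseq ha1 aseq_rec m (by omega)
  rw [hz] at h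
  have h1 : ((∑ k ∈ range (m + 1), (21 * k ^ 3 + 22 * k ^ 2 + 8 * k + 1) * ((2 * k).choose k) ^ 7 *
      256 ^ (m + 1 - 1 - k) : ℕ) : ℚ) = 2 * (256 ^ m * ∑ j ∈ range (m + 1), s j) := by
    rw [Finset.mul_sum, Finset.mul_sum]
    push_cast
    refine Finset.sum_congr rfl fun k hk => ?_
    have hk' := Finset.mem_range.mp hk
    unfold s
    obtain ⟨j, rfl⟩ : ∃ j, m = k + j := ⟨m - k, by omega⟩
    rw [show k + j - k = j by omega, pow_add (256 : ℚ) k j]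
    have z1 : (256 : ℚ) ^ k ≠ 0 := by positivity
    generalize (256 : ℚ) ^ k = A1 at *
    generalize (256 : ℚ) ^ j = A2 at *
    field_simp
  rw [← h] at h1
  have h2 : ((∑ k ∈ range (m + 1), (21 * k ^ 3 + 22 * k ^ 2 + 8 * k + 1) * ((2 * k).choose k) ^ 7 *
      256 ^ (m + 1 - 1 - k) : ℕ) : ℤ) =
      ((2 * (m + 1) ^ 3 * ((2 * (m + 1)).choose (m + 1)) ^ 3 : ℕ) : ℤ) * z := by
    have : (((∑ k ∈ range (m + 1), (21 * k ^ 3 + 22 * k ^ 2 + 8 * k + 1) *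
        ((2 * k).choose k) ^ 7 * 256 ^ (m + 1 - 1 - k) : ℕ) : ℤ) : ℚ) =
        ((((2 * (m + 1) ^ 3 * ((2 * (m + 1)).choose (m + 1)) ^ 3 : ℕ) : ℤ) * z : ℤ) : ℚ) := by
      rw [Int.cast_natCast, h1]
      push_cast
      ring
    exact_mod_cast this
  exact_mod_cast Dvd.intro z h2.symm

end Pool.Agent.R440.D518
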